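import Mathlib

set_option autoImplicit false

namespace Pool.Agent.H.MP_a0ba93_nt

open Finset

lemma crit (a N M T : ℕ → ℕ) (ha : Monotone a) (T0 : T 0 = 0) (Tu : ∀ t, ∃ j, t ≤ T (j + 1))
    (hc : ∀ j i, N j ≤ i → (M j : ℤ) ∣ a (N j) - a i)
    (h1 : ∀ j, ∑ i ∈ range (N j), ((a (N j) : ℤ) - a i) < (T j + 1) * a (N j))
    (h2 : ∀ j, T (j + 1) * a (N j) + ∑ i ∈ range (N j), ((a (N j) : ℤ) - a i) < M j)
    (P Q : Finset ℕ) (h : ∑ i ∈ P, a i = ∑ i ∈ Q, a i) : P.card ≤ Q.card := by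
  classical
  by_contra hlt
  obtain ⟨t, ht⟩ : ∃ t, P.card = Q.card + (t + 1) := ⟨P.card - Q.card - 1, by omega⟩
  set j := Nat.find (Tu (t + 1)) with hj
  have j1 : t + 1 ≤ T (j + 1) := Nat.find_spec (Tu (t + 1))
  have j2 : T j ≤ t := by
    rcases Nat.eq_zero_or_eq_succ_pred j with h | h
    · rw [h, T0]; omega
    · have := Nat.find_min (Tu (t + 1)) (m := j - 1) (by omega)
      rw [show j - 1 + 1 = j by omega] at this
      omega
  have key : ∀ R : Finset ℕ, ∃ d : ℤ, 0 ≤ d ∧ d ≤ ∑ i ∈ range (N j), ((a (N j) : ℤ) - a i) ∧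
      (M j : ℤ) ∣ R.card * a (N j) - (∑ i ∈ R, a i : ℕ) - d := by
    intro R
    have nn : ∀ i < N j, 0 ≤ (a (N j) : ℤ) - a i := fun i hi =>
      sub_nonneg.2 (by exact_mod_cast ha hi.le)
    refine ⟨∑ i ∈ R.filter (· < N j), ((a (N j) : ℤ) - a i),
      sum_nonneg fun i hi => nn i (mem_filter.1 hi).2,
      sum_le_sum_of_subset_of_nonneg (fun i hi => mem_range.2 (mem_filter.1 hi).2)
        fun i hi _ => nn i (mem_range.1 hi), ?_⟩
    have e : (R.card : ℤ) * a (N j) - (∑ i ∈ R, a i : ℕ) = ∑ i ∈ R, ((a (N j) : ℤ) - a i) := by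
      simp [sum_sub_distrib]
    rw [e, ← sum_filter_add_sum_filter_not R (· < N j), add_sub_cancel_left]
    exact dvd_sum fun i hi => hc j i (not_lt.1 (mem_filter.1 hi).2)
  obtain ⟨d, d0, d1, d2⟩ := key P
  obtain ⟨e, e0, e1, e2⟩ := key Q
  have h3 := dvd_sub d2 e2
  rw [h, ht] at h3
  have w0 : (0 : ℤ) ≤ a (N j) := Nat.cast_nonneg _
  have j1' : (t : ℤ) + 1 ≤ T (j + 1) := by exact_mod_cast j1
  have j2' : (T j : ℤ) ≤ t := by exact_mod_cast j2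
  have := Int.le_of_dvd (by push_cast; nlinarith [h1 j]) h3
  push_cast at this
  nlinarith [h2 j]

structure Par (s g : ℕ → ℕ) : Prop where
  s0 : 1 ≤ s 0
  g0 : 3 * s 0 + 3 ≤ g 0
  h1 : ∀ j, s (j + 1) + s j + 6 ≤ g j
  h2 : ∀ j, 2 * s (j + 1) + 2 * g j ≤ g (j + 1)
  h3 : ∀ j, 2 * s j ≤ s (j + 1)

def mm (s g : ℕ → ℕ) : ℕ → ℕ
  | 0 => s 0 + 3
  | j + 1 => 2 * g j

def NN (s : ℕ → ℕ) : ℕ → ℕ
  | 0 => 0
  | j + 1 => 2 ^ (2 * s j)

def TT (s : ℕ → ℕ) : ℕ → ℕ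
  | 0 => 0
  | j + 1 => 4 * 2 ^ s j

variable {s g : ℕ → ℕ}

lemma Par.s_gt (h : Par s g) (j : ℕ) : j < s j := by
  induction j with
  | zero => exact h.s0
  | succ j ih => have := h.h3 j; omega

lemma Par.ex (h : Par s g) (n : ℕ) : ∃ j, n < 2 ^ (2 * s j) :=
  ⟨n, (Nat.lt_two_pow_self).trans_le (Nat.pow_le_pow_right two_pos (by have := h.s_gt n; omega))⟩

lemma Par.mg (h : Par s g) (j : ℕ) : 2 * s j + mm s g j ≤ g j := by
  cases j with
  | zero => have := h.g0; simp only [mm]; omega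
  | succ j => exact h.h2 j

lemma Par.s_mono (h : Par s g) : Monotone s :=
  monotone_nat_of_le_succ fun j => by have := h.h3 j; omega

lemma Par.g_mono (h : Par s g) : Monotone g :=
  monotone_nat_of_le_succ fun j => by have := h.h2 j; omega

lemma Par.m_mono (h : Par s g) : Monotone (mm s g) :=
  monotone_nat_of_le_succ fun j => by have := h.mg j; show mm s g j ≤ 2 * g j; omega

def Par.L (h : Par s g) (n : ℕ) : ℕ := Nat.find (h.ex n)

def Par.φ (h : Par s g) (n : ℕ) : ℕ :=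
  if 2 ^ s (h.L n) ≤ n ∧ n < 2 * 2 ^ s (h.L n) then g (h.L n) else mm s g (h.L n)

def Par.a (h : Par s g) (n : ℕ) : ℕ := 1 + ∑ i ∈ range n, 2 ^ h.φ i

lemma Par.L_le (h : Par s g) {n j : ℕ} (hn : n < 2 ^ (2 * s j)) : h.L n ≤ j := Nat.find_min' _ hn

lemma Par.le_L (h : Par s g) {n j : ℕ} (hn : NN s j ≤ n) : j ≤ h.L n := by
  cases j with
  | zero => exact Nat.zero_le _
  | succ j =>
    by_contra hc
    have h1 : n < 2 ^ (2 * s (h.L n)) := Nat.find_spec (h.ex n)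
    have h2 : 2 ^ (2 * s (h.L n)) ≤ 2 ^ (2 * s j) :=
      Nat.pow_le_pow_right two_pos (by have := h.s_mono (show h.L n ≤ j by omega); omega)
    simp only [NN] at hn
    omega

lemma Par.L_eq (h : Par s g) {n j : ℕ} (h1 : 2 ^ s j ≤ n) (h2 : n < 2 ^ (2 * s j)) :
    h.L n = j := by
  refine le_antisymm (h.L_le h2) (h.le_L (le_trans ?_ h1))
  cases j with
  | zero => exact Nat.zero_le _
  | succ j => exact Nat.pow_le_pow_right two_pos (h.h3 j)

lemma Par.F1 (h : Par s g) {n j : ℕ} (hn : NN s j ≤ n) : mm s g j ≤ h.φ n := by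
  have := h.m_mono (h.le_L hn)
  have := h.mg (h.L n)
  unfold Par.φ
  split_ifs <;> omega

lemma Par.F2 (h : Par s g) {n j : ℕ} (hn : n < 2 ^ (2 * s j)) : h.φ n ≤ g j := by
  have := h.g_mono (h.L_le hn)
  have := h.mg (h.L n)
  unfold Par.φ
  split_ifs <;> omega

lemma Par.a_sub (h : Par s g) {m n : ℕ} (hn : m ≤ n) :
    h.a n = h.a m + ∑ i ∈ Ico m n, 2 ^ h.φ i := by
  rw [Par.a, Par.a, add_assoc, sum_range_add_sum_Ico _ hn]

lemma Par.a_mono (h : Par s g) : StrictMono h.a := strictMono_nat_of_lt_succ fun n => by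
  rw [h.a_sub n.le_succ]
  simp

lemma Par.bds (h : Par s g) (j : ℕ) : h.a (2 ^ (2 * s j)) ≤ 4 * 2 ^ s j * 2 ^ g j ∧
    ∑ i ∈ range (2 ^ (2 * s j)), ((h.a (2 ^ (2 * s j)) : ℤ) - h.a i) ≤
      4 * 2 ^ s j * h.a (2 ^ (2 * s j)) := by
  have s1 := h.s_gt j
  have hS : 2 * 2 ^ s j ≤ 2 ^ (2 * s j) := by
    rw [← pow_succ']; exact Nat.pow_le_pow_right two_pos (by omega)
  have hG : 2 ^ (2 * s j) * 2 ^ mm s g j ≤ 2 ^ g j := by
    rw [← pow_add]; exact Nat.pow_le_pow_right two_pos (h.mg j)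
  have e2 : 2 ^ (2 * s j) = 2 ^ s j * 2 ^ s j := by rw [two_mul, pow_add]
  have S2 : 2 ≤ 2 ^ s j := Nat.le_self_pow (by omega) 2
  have b1 : ∀ i, 2 * 2 ^ s j ≤ i → i ≤ 2 ^ (2 * s j) →
      h.a (2 ^ (2 * s j)) ≤ h.a i + 2 ^ g j := by
    intro i h1 h2
    rw [h.a_sub h2]
    refine Nat.add_le_add_left (le_trans (sum_le_card_nsmul _ _ (2 ^ mm s g j) fun k hk => ?_)
      (le_trans ?_ hG)) _
    · have := mem_Ico.1 hk
      rw [Par.φ, h.L_eq (j := j) (by omega) this.2, if_neg (by omega)]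
    · simp only [Nat.card_Ico, smul_eq_mul]
      exact Nat.mul_le_mul_right _ (Nat.sub_le _ _)
  have b2 : h.a (2 * 2 ^ s j) ≤ 1 + 2 * 2 ^ s j * 2 ^ g j := by
    refine Nat.add_le_add_left (le_trans (sum_le_card_nsmul _ _ (2 ^ g j) fun k hk => ?_)
      (by simp)) _
    exact Nat.pow_le_pow_right two_pos (h.F2 ((mem_range.1 hk).trans_le hS))
  have b3 : 2 ^ s j * 2 ^ g j ≤ h.a (2 ^ (2 * s j)) := by
    refine le_trans ?_ (h.a_mono.monotone hS)
    rw [h.a_sub (show 2 ^ s j ≤ 2 * 2 ^ s j by omega)]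
    refine le_trans (le_trans (le_of_eq ?_) (card_nsmul_le_sum _ _ (2 ^ g j) fun k hk => ?_))
      (Nat.le_add_left _ _)
    · simp [two_mul]
    · have := mem_Ico.1 hk
      rw [Par.φ, h.L_eq (j := j) this.1 (by omega), if_pos this]
  have G0 : 0 < 2 ^ g j := by positivity
  refine ⟨by nlinarith [b1 _ le_rfl hS], ?_⟩
  rw [← sum_range_add_sum_Ico _ hS]
  have c1 : ∑ i ∈ range (2 * 2 ^ s j), ((h.a (2 ^ (2 * s j)) : ℤ) - h.a i) ≤
      2 * 2 ^ s j * h.a (2 ^ (2 * s j)) :=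
    (sum_le_card_nsmul _ _ (h.a (2 ^ (2 * s j)) : ℤ) fun k _ => by simp).trans (by simp)
  have c2 : ∑ i ∈ Ico (2 * 2 ^ s j) (2 ^ (2 * s j)), ((h.a (2 ^ (2 * s j)) : ℤ) - h.a i) ≤
      (2 ^ s j * (2 ^ s j * 2 ^ g j) : ℕ) := by
    refine (sum_le_card_nsmul _ _ ((2 ^ g j : ℕ) : ℤ) fun k hk => ?_).trans ?_
    · have := b1 k (mem_Ico.1 hk).1 (mem_Ico.1 hk).2.le
      omega
    · rw [Nat.card_Ico, nsmul_eq_mul, ← Nat.cast_mul, Nat.cast_le, ← mul_assoc, ← e2]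
      exact Nat.mul_le_mul_right _ (Nat.sub_le _ _)
  have c3 : ((2 ^ s j * (2 ^ s j * 2 ^ g j) : ℕ) : ℤ) ≤ (2 ^ s j * h.a (2 ^ (2 * s j)) : ℕ) :=
    Nat.cast_le.2 (Nat.mul_le_mul_left _ b3)
  push_cast at c2 c3
  have : (0 : ℤ) ≤ 2 ^ s j * h.a (2 ^ (2 * s j)) := by positivity
  nlinarith

lemma Par.adm (h : Par s g) (P Q : Finset ℕ) (e : ∑ i ∈ P, h.a i = ∑ i ∈ Q, h.a i) :
    P.card ≤ Q.card := by
  refine crit h.a (NN s) (fun j => 2 ^ mm s g j) (TT s) h.a_mono.monotone rfl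
    (fun t => ⟨t, ?_⟩) (fun j i hi => ?_) (fun j => ?_) (fun j => ?_) P Q e
  · have := h.s_gt t
    have := Nat.lt_two_pow_self (n := s t)
    simp only [TT]; omega
  · rw [h.a_sub hi]
    push_cast
    rw [sub_add_cancel_left, dvd_neg]
    exact dvd_sum fun k hk => pow_dvd_pow _ (h.F1 (mem_Ico.1 hk).1)
  · cases j with
    | zero => simp [NN, TT, Par.a]
    | succ j =>
      have := (h.bds j).2
      have p : (0 : ℤ) < h.a (2 ^ (2 * s j)) := by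
        exact_mod_cast (Nat.add_pos_left one_pos _ : 0 < h.a (2 ^ (2 * s j)))
      simp only [NN, TT]
      push_cast
      linarith
  · cases j with
    | zero =>
      simp only [NN, TT, Par.a, mm, range_zero, sum_empty]
      push_cast
      have : (0 : ℤ) < 2 ^ s 0 := by positivity
      rw [pow_add]
      linarith
    | succ j =>
      obtain ⟨b1, b2⟩ := h.bds j
      have b1' : (h.a (2 ^ (2 * s j)) : ℤ) ≤ 4 * 2 ^ s j * 2 ^ g j := by exact_mod_cast b1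
      have b3 : (2 : ℤ) ^ s j ≤ 2 ^ s (j + 1) := pow_le_pow_right₀ one_le_two (h.s_mono j.le_succ)
      have b4 : (2 : ℤ) ^ (s (j + 1) + s j + 6 + g j) ≤ 2 ^ (2 * g j) :=
        pow_le_pow_right₀ one_le_two (by have := h.h1 j; omega)
      simp only [pow_add] at b4
      simp only [NN, TT, mm]
      push_cast
      have p : (0 : ℤ) ≤ h.a (2 ^ (2 * s j)) := Nat.cast_nonneg _
      have p2 : (0 : ℤ) < 2 ^ s (j + 1) * 2 ^ s j * 2 ^ g j := by positivity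
      have p3 : (0 : ℤ) ≤ 2 ^ s (j + 1) := by positivity
      nlinarith [mul_le_mul_of_nonneg_right b3 p, mul_le_mul_of_nonneg_left b1' p3]

lemma Par.gap (h : Par s g) {c : ℝ} (hc : 0 ≤ c) (hg : ∀ j, (g j : ℝ) ≤ c * s j) {n : ℕ}
    (hn : 2 ^ (2 * s 0) ≤ n) : (h.a (n + 1) : ℝ) - h.a n ≤ (n : ℝ) ^ c := by
  have key : ∀ k e : ℕ, 2 ^ k ≤ n → (e : ℝ) ≤ c * k → (2 : ℝ) ^ e ≤ (n : ℝ) ^ c := by
    intro k e h1 h2
    have h3 : (2 : ℝ) ^ (k : ℝ) ≤ n := by rw [Real.rpow_natCast]; exact_mod_cast h1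
    refine le_trans ?_ (Real.rpow_le_rpow (by positivity) h3 hc)
    rw [← Real.rpow_mul zero_le_two, ← Real.rpow_natCast]
    exact Real.rpow_le_rpow_of_exponent_le one_le_two (by linarith)
  rw [h.a_sub n.le_succ, Nat.Ico_succ_singleton, sum_singleton]
  push_cast
  rw [add_sub_cancel_left, Par.φ]
  split_ifs with h1
  · exact key _ _ h1.1 (hg _)
  · obtain ⟨j, hj⟩ : ∃ j, h.L n = j + 1 := ⟨h.L n - 1, by have := h.le_L (j := 1) hn; omega⟩
    have := Nat.find_min (h.ex n) (m := j) (by change j < h.L n; omega)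
    rw [hj]
    refine key (2 * s j) _ (not_lt.1 this) ?_
    simp only [mm]
    push_cast
    linarith [hg j]

lemma par_ex {c : ℝ} (hc : (5 + √17) / 2 < c) :
    ∃ s g, Par s g ∧ ∀ j, (g j : ℝ) ≤ c * s j := by
  have q : √17 * √17 = 17 := Real.mul_self_sqrt (by norm_num)
  have q4 : 4 ≤ √17 := Real.le_sqrt_of_sq_le (by norm_num)
  have c1 : 9 / 2 < c := by linarith
  have c2 : 0 < (c - 4) * (c - 1) - 2 := by nlinarith
  obtain ⟨K, hK⟩ := exists_nat_ge ((7 * c + 13) / ((c - 4) * (c - 1) - 2) + 7)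
  have K7 : (7 : ℝ) ≤ K := le_trans (le_add_of_nonneg_left (by positivity)) hK
  have K2 : 7 * c + 13 ≤ K * ((c - 4) * (c - 1) - 2) := by
    rw [← div_le_iff₀ c2]; linarith
  obtain ⟨s, s0, hs⟩ : ∃ s : ℕ → ℕ, s 0 = K ∧ ∀ j, s (j + 1) = ⌊c * s j⌋₊ - s j - 6 :=
    ⟨fun j => Nat.rec K (fun _ x => ⌊c * x⌋₊ - x - 6) j, rfl, fun _ => rfl⟩
  have st : ∀ x : ℕ, K ≤ x → 3 * x + 6 ≤ ⌊c * x⌋₊ := fun x hx => Nat.le_floor (by
    have : (K : ℝ) ≤ x := by exact_mod_cast hx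
    push_cast
    nlinarith)
  have sK : ∀ j, K ≤ s j := fun j => by
    induction j with
    | zero => exact s0.ge
    | succ j ih => have := st _ ih; rw [hs]; omega
  have K1 : 7 ≤ K := by exact_mod_cast K7
  refine ⟨s, fun j => ⌊c * s j⌋₊, ⟨by have := sK 0; omega, by have := st _ (sK 0); omega,
    fun j => by have := st _ (sK j); rw [hs]; omega, fun j => Nat.le_floor ?_,
    fun j => by have := st _ (sK j); rw [hs]; omega⟩, fun j => Nat.floor_le (by positivity)⟩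
  have e : ⌊c * s j⌋₊ = s (j + 1) + s j + 6 := by have := st _ (sK j); rw [hs]; omega
  have e2 := Nat.lt_floor_add_one (c * s j)
  rw [e] at e2 ⊢
  have : (K : ℝ) ≤ s j := by exact_mod_cast sK j
  push_cast at e2 ⊢
  nlinarith [mul_le_mul_of_nonneg_left e2.le (show 0 ≤ c - 4 by linarith),
    mul_le_mul_of_nonneg_right this c2.le]

end Pool.Agent.H.MP_a0ba93_nt
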